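import Pool.Agent.Helper72.AI.Stmts

set_option autoImplicit false

/-! Packet `S_choice` for MP_870acd_co. -/

namespace Pool.Agent.Helper65.AI

open AffInc

lemma kap_lt : kap < 0.4135 := by
  unfold kap
  have h1 : Real.sqrt 3 < 1.7320509 := by
    rw [Real.sqrt_lt' (by norm_num)]
    norm_num
  have h2 := Real.pi_gt_d6
  rw [div_lt_iff₀ (by positivity)]
  nlinarith

lemma lt_kap : 0.41349 < kap := by
  unfold kap
  have h1 : 1.7320508 < Real.sqrt 3 := by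
    rw [Real.lt_sqrt (by norm_num)]
    norm_num
  have h2 := Real.pi_lt_d6
  have h3 := Real.pi_pos
  rw [lt_div_iff₀ (by positivity)]
  nlinarith

/-- The three-way choice. -/
lemma three (ρ : Fin 3 → ℝ) (h0 : 0 ≤ ρ 0) (h01 : ρ 0 ≤ ρ 1) (h12 : ρ 1 ≤ ρ 2)
    (hsum : 1 ≤ ρ 0 + ρ 1 + ρ 2) (hh : 1 / 2 ≤ ρ 0 + ρ 1) :
    ∃ (r : Fin 3 → ℝ) (c : ℝ), (∀ i, 0 ≤ r i) ∧ (∀ i, r i ≤ 1 / 2) ∧ ∑ i, r i = 1 ∧ 1 ≤ c ∧
      (∀ i, 1 + 2 * r i ^ 2 - ∑ j, r j ^ 2 ≤ c) ∧ (∀ i, r i ≤ ρ i) ∧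
      (c = 1 ∨ c = 1 + ((1 - ρ 0 - ρ 1) ^ 2 - ρ 0 ^ 2 - ρ 1 ^ 2)) := by
  by_cases hA : 1 / 3 ≤ ρ 0
  · refine ⟨fun _ => 1 / 3, 1, fun i => by norm_num, fun i => by norm_num, ?_, le_rfl, ?_, ?_,
      Or.inl rfl⟩
    · rw [Fin.sum_univ_three]; norm_num
    · intro i
      simp only [Fin.sum_univ_three]; norm_num
    · intro i
      fin_cases i
      · exact hA
      · exact hA.trans h01
      · exact (hA.trans h01).trans h12
  push Not at hA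
  by_cases hB : (1 - ρ 0) / 2 ≤ ρ 1
  · refine ⟨![ρ 0, (1 - ρ 0) / 2, (1 - ρ 0) / 2], 1, ?_, ?_, ?_, le_rfl, ?_, ?_, Or.inl rfl⟩
    · intro i
      fin_cases i
      · exact h0
      · change 0 ≤ (1 - ρ 0) / 2; linarith
      · change 0 ≤ (1 - ρ 0) / 2; linarith
    · intro i
      fin_cases i
      · change ρ 0 ≤ 1 / 2; linarith
      · change (1 - ρ 0) / 2 ≤ 1 / 2; linarith
      · change (1 - ρ 0) / 2 ≤ 1 / 2; linarith
    · rw [Fin.sum_univ_three]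
      change ρ 0 + (1 - ρ 0) / 2 + (1 - ρ 0) / 2 = 1
      ring
    · intro i
      rw [Fin.sum_univ_three]
      fin_cases i
      · change 1 + 2 * ρ 0 ^ 2 - (ρ 0 ^ 2 + ((1 - ρ 0) / 2) ^ 2 + ((1 - ρ 0) / 2) ^ 2) ≤ 1
        nlinarith
      · change 1 + 2 * ((1 - ρ 0) / 2) ^ 2 - (ρ 0 ^ 2 + ((1 - ρ 0) / 2) ^ 2 +
          ((1 - ρ 0) / 2) ^ 2) ≤ 1
        nlinarith [sq_nonneg (ρ 0)]
      · change 1 + 2 * ((1 - ρ 0) / 2) ^ 2 - (ρ 0 ^ 2 + ((1 - ρ 0) / 2) ^ 2 +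
          ((1 - ρ 0) / 2) ^ 2) ≤ 1
        nlinarith [sq_nonneg (ρ 0)]
    · intro i
      fin_cases i
      · exact le_rfl
      · exact hB
      · exact hB.trans h12
  push Not at hB
  have h1 : 0 ≤ ρ 1 := h0.trans h01
  set e : ℝ := 1 - ρ 0 - ρ 1 with he
  have he1 : ρ 1 ≤ e := by rw [he]; linarith
  have he0 : ρ 0 ≤ e := h01.trans he1
  have hepos : 0 ≤ e := h0.trans he0
  set D : ℝ := e ^ 2 - ρ 0 ^ 2 - ρ 1 ^ 2 with hD
  refine ⟨![ρ 0, ρ 1, e], max 1 (1 + D), ?_, ?_, ?_, le_max_left _ _, ?_, ?_, ?_⟩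
  · intro i
    fin_cases i
    · exact h0
    · exact h1
    · exact hepos
  · intro i
    fin_cases i
    · change ρ 0 ≤ 1 / 2; linarith
    · change ρ 1 ≤ 1 / 2; linarith
    · change e ≤ 1 / 2; linarith
  · rw [Fin.sum_univ_three]
    change ρ 0 + ρ 1 + e = 1
    rw [he]; ring
  · intro i
    refine le_trans ?_ (le_max_right _ _)
    rw [Fin.sum_univ_three]
    fin_cases i
    · change 1 + 2 * ρ 0 ^ 2 - (ρ 0 ^ 2 + ρ 1 ^ 2 + e ^ 2) ≤ 1 + D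
      rw [hD]
      nlinarith
    · change 1 + 2 * ρ 1 ^ 2 - (ρ 0 ^ 2 + ρ 1 ^ 2 + e ^ 2) ≤ 1 + D
      rw [hD]
      nlinarith
    · change 1 + 2 * e ^ 2 - (ρ 0 ^ 2 + ρ 1 ^ 2 + e ^ 2) ≤ 1 + D
      rw [hD]
      linarith
  · intro i
    fin_cases i
    · exact le_rfl
    · exact le_rfl
    · change e ≤ ρ 2; linarith
  · rcases le_total 1 (1 + D) with h | h
    · right
      rw [max_eq_right h]
    · left
      exact max_eq_left h

lemma q_le (a b s : ℝ) (ha : 0 ≤ a) (hb : 0 ≤ b) (h : a + b ≤ s) : a * b ≤ s ^ 2 / 4 := by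
  have h1 : (a + b) ^ 2 ≤ s ^ 2 := pow_le_pow_left₀ (by linarith) h 2
  nlinarith [sq_nonneg (a - b)]

lemma quad1 (s : ℝ) (h0 : 0 ≤ s) (h : s ≤ 1) :
    4 * 0.4135 * (1 / 2 + s / 2 + s ^ 2 / 8) < 1 + s := by
  nlinarith [mul_nonneg h0 (sub_nonneg.2 h)]

lemma quad2 (s : ℝ) (h0 : 1 ≤ s) (h : 1 + s < 2.4185) :
    (1 + s) ^ 2 + (1 - s ^ 2 / 2) ≤ (1 + s) * 2.4161 := by
  have h1 : 0 ≤ 1.4185 - s := by linarith
  nlinarith [mul_nonneg (sub_nonneg.2 h0) h1]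

lemma x_lt (s k : ℝ) (hs : 0 < 1 + s) (hk : 0.41349 < k) (h : (1 + s) * k < 1) :
    1 + s < 2.4185 := by
  have h1 : (1 + s) * 0.41349 < (1 + s) * k := mul_lt_mul_of_pos_left hk hs
  have h2 : (1 + s) * 0.41349 < 1 := h1.trans h
  linarith

lemma sorted (t : Fin 3 → ℝ) (s : ℝ) (ht0 : ∀ i, 0 ≤ t i) (ht1 : ∀ i, t i ≤ 1)
    (hs : s = ∑ i, t i) (hs1 : 0.654 ≤ s) (hs2 : (1 + s) * kap < 1) (h01 : t 1 ≤ t 0)
    (h12 : t 2 ≤ t 1) :
    ∃ (r : Fin 3 → ℝ) (c : ℝ), (∀ i, 0 ≤ r i) ∧ (∀ i, r i ≤ 1 / 2) ∧ ∑ i, r i = 1 ∧ 1 ≤ c ∧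
    (∀ i, 1 + 2 * r i ^ 2 - ∑ j, r j ^ 2 ≤ c) ∧
    (((∀ i, r i ≤ (1 - t i) / 2) ∧ 4 * kap * c < 1 + s) ∨
     ((∀ i, r i ≤ (s - t i) / (1 + s)) ∧ kap * c * (1 + s) < 1)) := by
  have hk1 := kap_lt
  have hk2 := lt_kap
  have hs3 : s = t 0 + t 1 + t 2 := by rw [hs, Fin.sum_univ_three]
  have a0 := ht0 0
  have a1 := ht0 1
  have a2 := ht0 2
  have b0 := ht1 0
  have b1 := ht1 1
  have b2 := ht1 2
  rcases le_total s 1 with hle | hge
  · obtain ⟨r, c, h1, h2, h3, h4, h5, h6, h7⟩ := three (fun i => (1 - t i) / 2)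
      (by change 0 ≤ (1 - t 0) / 2; linarith) (by change (1 - t 0) / 2 ≤ (1 - t 1) / 2; linarith)
      (by change (1 - t 1) / 2 ≤ (1 - t 2) / 2; linarith)
      (by change 1 ≤ (1 - t 0) / 2 + (1 - t 1) / 2 + (1 - t 2) / 2; linarith)
      (by change 1 / 2 ≤ (1 - t 0) / 2 + (1 - t 1) / 2; linarith)
    refine ⟨r, c, h1, h2, h3, h4, h5, Or.inl ⟨h6, ?_⟩⟩
    rcases h7 with rfl | h7
    · linarith
    · have hc : c = 1 + (t 0 * t 1 + t 0 + t 1 - 1) / 2 := by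
        rw [h7]; ring
      have hq : t 0 * t 1 ≤ s ^ 2 / 4 := q_le _ _ _ a0 a1 (by linarith)
      have hc2 : c ≤ 1 / 2 + s / 2 + s ^ 2 / 8 := by
        rw [hc]; linarith
      have hc3 : 4 * kap * c ≤ 4 * 0.4135 * c :=
        mul_le_mul_of_nonneg_right (by linarith) (by linarith)
      have hc4 : 4 * 0.4135 * c ≤ 4 * 0.4135 * (1 / 2 + s / 2 + s ^ 2 / 8) := by linarith
      exact (hc3.trans hc4).trans_lt (quad1 s (by linarith) hle)
  · have hx : 0 < 1 + s := by linarith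
    have hxu : 1 + s < 2.4185 := x_lt s kap hx hk2 hs2
    have e1 : (s - t 0) / (1 + s) + (s - t 1) / (1 + s) + (s - t 2) / (1 + s) =
        2 * s / (1 + s) := by
      rw [← add_div, ← add_div, hs3]; congr 1; ring
    have e2 : (s - t 0) / (1 + s) + (s - t 1) / (1 + s) = (2 * s - t 0 - t 1) / (1 + s) := by
      rw [← add_div]; congr 1; ring
    obtain ⟨r, c, h1, h2, h3, h4, h5, h6, h7⟩ := three (fun i => (s - t i) / (1 + s))
      (div_nonneg (by linarith) hx.le)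
      (div_le_div_of_nonneg_right (by linarith) hx.le)
      (div_le_div_of_nonneg_right (by linarith) hx.le)
      (by
        change 1 ≤ (s - t 0) / (1 + s) + (s - t 1) / (1 + s) + (s - t 2) / (1 + s)
        rw [e1, le_div_iff₀ hx]; linarith)
      (by
        change 1 / 2 ≤ (s - t 0) / (1 + s) + (s - t 1) / (1 + s)
        rw [e2, le_div_iff₀ hx]; linarith)
    refine ⟨r, c, h1, h2, h3, h4, h5, Or.inr ⟨h6, ?_⟩⟩
    rcases h7 with rfl | h7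
    · linarith
    · have hc : (1 + s) ^ 2 * c = (1 + s) ^ 2 + (1 - 2 * s - s ^ 2 + 2 * (t 0 + t 1) +
          2 * (t 0 * t 1)) := by
        rw [h7]
        field_simp
        ring
      have hq : t 0 * t 1 ≤ s ^ 2 / 4 := q_le _ _ _ a0 a1 (by linarith)
      have hc2 : (1 + s) * ((1 + s) * c) ≤ (1 + s) * 2.4161 := by
        have : (1 + s) * ((1 + s) * c) = (1 + s) ^ 2 * c := by ring
        rw [this, hc]
        refine le_trans ?_ (quad2 s hge hxu)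
        linarith
      have hc3 : (1 + s) * c ≤ 2.4161 := le_of_mul_le_mul_left hc2 hx
      have hkp : 0 < kap := by linarith
      calc kap * c * (1 + s) = kap * ((1 + s) * c) := by ring
        _ ≤ kap * 2.4161 := mul_le_mul_of_nonneg_left hc3 hkp.le
        _ < 1 := by linarith

theorem pf_S_choice : AffInc.S_choice := by
  intro t s ht0 ht1 hs hs1 hs2
  -- sort
  let σ : Equiv.Perm (Fin 3) := Tuple.sort (fun i => - t i)
  have hmono : Monotone ((fun i => - t i) ∘ σ) := Tuple.monotone_sort _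
  have m01 : t (σ 1) ≤ t (σ 0) := by
    have := hmono (show (0 : Fin 3) ≤ 1 by decide)
    simp only [Function.comp_apply] at this
    linarith
  have m12 : t (σ 2) ≤ t (σ 1) := by
    have := hmono (show (1 : Fin 3) ≤ 2 by decide)
    simp only [Function.comp_apply] at this
    linarith
  obtain ⟨r, c, h1, h2, h3, h4, h5, h6⟩ := sorted (fun i => t (σ i)) s (fun i => ht0 _)
    (fun i => ht1 _) (by rw [hs]; exact (Equiv.sum_comp σ t).symm) hs1 hs2 m01 m12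
  have hsq : ∑ j, r (σ.symm j) ^ 2 = ∑ j, r j ^ 2 := Equiv.sum_comp σ.symm fun j => r j ^ 2
  refine ⟨fun i => r (σ.symm i), c, fun i => h1 _, fun i => h2 _, ?_, h4, ?_, ?_⟩
  · rw [← h3]; exact Equiv.sum_comp σ.symm r
  · intro i
    rw [hsq]
    exact h5 _
  · rcases h6 with ⟨h6, h7⟩ | ⟨h6, h7⟩
    · refine Or.inl ⟨fun i => ?_, h7⟩
      have := h6 (σ.symm i)
      simpa using this
    · refine Or.inr ⟨fun i => ?_, h7⟩
      have := h6 (σ.symm i)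
      simpa using this

end Pool.Agent.Helper65.AI
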